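import Mathlib

set_option autoImplicit false
set_option maxHeartbeats 4000000

namespace Pool.Agent.Lib.MP_0ea763_nt

/-- `m` is a sum of two integer squares -/
def Sq2 (m : ℤ) : Prop := ∃ x y : ℤ, m = x ^ 2 + y ^ 2

/-- infinitely many `n` with all four shifts sums of two squares -/
def Inf4 (h1 h2 h3 h4 : ℤ) : Prop :=
  Set.Infinite {n : ℤ | Sq2 (n + h1) ∧ Sq2 (n + h2) ∧ Sq2 (n + h3) ∧ Sq2 (n + h4)}

lemma Sq2.two_mul {m : ℤ} (h : Sq2 m) : Sq2 (2 * m) := by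
  obtain ⟨x, y, rfl⟩ := h
  exact ⟨x + y, x - y, by ring⟩

lemma Sq2.of_two_mul {m : ℤ} (h : Sq2 (2 * m)) : Sq2 m := by
  obtain ⟨x, y, hxy⟩ := h
  have hpar : (x + y) % 2 = 0 := by
    have h1 : (x + y) ^ 2 = 2 * (m + x * y) := by linear_combination -hxy
    have h2 : (2 : ℤ) ∣ (x + y) ^ 2 := ⟨_, h1⟩
    have h3 := Int.prime_two.dvd_of_dvd_pow h2
    omega
  obtain ⟨u, hu⟩ : ∃ u, x + y = 2 * u := ⟨(x + y) / 2, by omega⟩
  refine ⟨u, u - y, ?_⟩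
  have hx : x = 2 * u - y := by linarith
  subst hx
  have : 2 * m = 2 * (u ^ 2 + (u - y) ^ 2) := by linear_combination hxy
  linarith

/-! ### The Pell argument -/

/-- arbitrarily large values of `D t^2 + 2 E t = D' s^2 + 2 E' s` with `t`, `s` even -/
lemma pell_large (D D' E E' : ℤ) (hD : 0 < D) (hD' : 0 < D') (hns : ¬ IsSquare (D * D'))
    (hE : E ≠ 0 ∨ E' ≠ 0) (B : ℤ) :
    ∃ t s : ℤ, D * (2 * t) ^ 2 + 2 * E * (2 * t) = D' * (2 * s) ^ 2 + 2 * E' * (2 * s) ∧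
      B < D * (2 * t) ^ 2 + 2 * E * (2 * t) := by
  obtain ⟨M, hM0, hMB⟩ : ∃ M : ℤ, 0 < M ∧ B < M := ⟨max B 0 + 1, by
    have := le_max_right B 0; omega, by have := le_max_left B 0; omega⟩
  have hns' : ¬ IsSquare (D * D' * M ^ 2) := by
    rintro ⟨r, hr⟩
    apply hns
    have hM2 : (M : ℤ) ^ 2 ∣ r ^ 2 := ⟨D * D', by linear_combination -hr⟩
    have hMr : M ∣ r := (Int.pow_dvd_pow_iff (by norm_num)).mp hM2
    obtain ⟨k, rfl⟩ := hMr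
    refine ⟨k, ?_⟩
    have hM' : M ^ 2 ≠ 0 := pow_ne_zero _ hM0.ne'
    apply mul_right_cancel₀ hM'
    linear_combination hr
  obtain ⟨x, y, hxy, hy⟩ := Pell.exists_of_not_isSquare
    (d := D * D' * M ^ 2) (by positivity) hns'
  -- sign choice
  obtain ⟨x, hxy, hsgn⟩ : ∃ x : ℤ, x ^ 2 - D * D' * M ^ 2 * y ^ 2 = 1 ∧ 0 ≤ x * (M * y) * E * E' := by
    rcases le_total 0 (x * (M * y) * E * E') with h | h
    · exact ⟨x, hxy, h⟩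
    · exact ⟨-x, by linear_combination hxy, by nlinarith⟩
  obtain ⟨Y, hY⟩ : ∃ Y, Y = M * y := ⟨_, rfl⟩
  rw [← hY] at hsgn
  have hxY : x ^ 2 = 1 + D * D' * Y ^ 2 := by rw [hY]; linear_combination hxy
  have hYM : M ^ 2 ≤ Y ^ 2 := by
    rw [hY]
    have : 1 ≤ y ^ 2 := by
      have := sq_pos_of_pos (abs_pos.mpr hy)
      rw [sq_abs] at this
      omega
    nlinarith [sq_nonneg M]
  obtain ⟨t, ht⟩ : ∃ t, t = D' * Y ^ 2 * E + x * Y * E' := ⟨_, rfl⟩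
  obtain ⟨s, hs⟩ : ∃ s, s = D * Y ^ 2 * E' + x * Y * E := ⟨_, rfl⟩
  refine ⟨t, s, ?_, ?_⟩
  · rw [ht, hs]
    linear_combination 4 * Y ^ 2 * (D * E' ^ 2 - D' * E ^ 2) * hxY
  · have h1 : 0 ≤ E * t := by
      rw [ht]
      have e1 : E * (D' * Y ^ 2 * E + x * Y * E') = D' * Y ^ 2 * E ^ 2 + x * Y * E * E' := by ring
      rw [e1]; positivity
    have h2 : Y ^ 2 ≤ t ^ 2 := by
      have e2 : t ^ 2 = D' ^ 2 * Y ^ 4 * E ^ 2 + 2 * D' * Y ^ 2 * (x * Y * E * E') +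
          x ^ 2 * Y ^ 2 * E' ^ 2 := by rw [ht]; ring
      have hx1 : 1 ≤ x ^ 2 := by rw [hxY]; nlinarith [sq_nonneg Y, mul_pos hD hD']
      have hY1 : 1 ≤ Y ^ 2 := by nlinarith
      have p1 : 0 ≤ D' ^ 2 * Y ^ 4 * E ^ 2 := by positivity
      have p2 : 0 ≤ 2 * D' * Y ^ 2 * (x * Y * E * E') := by positivity
      have p3 : 0 ≤ x ^ 2 * Y ^ 2 * E' ^ 2 := by positivity
      rcases hE with h | h
      · have hE1 : 1 ≤ E ^ 2 := by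
          have := sq_pos_of_pos (abs_pos.mpr h)
          rw [sq_abs] at this
          omega
        have hD1 : 1 ≤ D' ^ 2 := by nlinarith
        have : Y ^ 2 ≤ D' ^ 2 * Y ^ 4 * E ^ 2 := by
          have a1 : Y ^ 2 ≤ Y ^ 4 := by nlinarith
          have a2 : Y ^ 4 ≤ D' ^ 2 * Y ^ 4 := by nlinarith [sq_nonneg (Y ^ 2)]
          have a3 : D' ^ 2 * Y ^ 4 ≤ D' ^ 2 * Y ^ 4 * E ^ 2 := by
            have : 0 ≤ D' ^ 2 * Y ^ 4 := by positivity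
            nlinarith
          linarith
        linarith
      · have hE1 : 1 ≤ E' ^ 2 := by
          have := sq_pos_of_pos (abs_pos.mpr h)
          rw [sq_abs] at this
          omega
        have : Y ^ 2 ≤ x ^ 2 * Y ^ 2 * E' ^ 2 := by
          have a2 : Y ^ 2 ≤ x ^ 2 * Y ^ 2 := by nlinarith
          have a3 : x ^ 2 * Y ^ 2 ≤ x ^ 2 * Y ^ 2 * E' ^ 2 := by
            have : 0 ≤ x ^ 2 * Y ^ 2 := by positivity
            nlinarith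
          linarith
        linarith
    have h3 : M ≤ M ^ 2 := by nlinarith
    nlinarith

/-- a set of integers containing arbitrarily large elements is infinite -/
lemma infinite_of_large {P : ℤ → Prop} (h : ∀ B : ℤ, ∃ n, B < n ∧ P n) :
    Set.Infinite {n : ℤ | P n} := by
  intro hfin
  obtain ⟨B, hB⟩ := hfin.bddAbove
  obtain ⟨n, hn, hP⟩ := h B
  exact absurd (hB hP) (not_le.mpr hn)

/-- moving a pair of points along a common direction keeps the difference of norms -/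
lemma move (x1 y1 x2 y2 t : ℤ) :
    (x1 - t * (y1 - y2)) ^ 2 + (y1 + t * (x1 - x2)) ^ 2 =
      x1 ^ 2 + y1 ^ 2 + (((x1 - x2) ^ 2 + (y1 - y2) ^ 2) * t ^ 2 + 2 * (x1 * y2 - x2 * y1) * t) ∧
    (x2 - t * (y1 - y2)) ^ 2 + (y2 + t * (x1 - x2)) ^ 2 =
      x2 ^ 2 + y2 ^ 2 + (((x1 - x2) ^ 2 + (y1 - y2) ^ 2) * t ^ 2 + 2 * (x1 * y2 - x2 * y1) * t) := by
  constructor <;> ring

/-- one solution with suitable representations gives infinitely many -/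
lemma inf_of_pair (n h1 h2 h3 h4 x1 y1 x2 y2 x3 y3 x4 y4 : ℤ)
    (e1 : n + h1 = x1 ^ 2 + y1 ^ 2) (e2 : n + h2 = x2 ^ 2 + y2 ^ 2)
    (e3 : n + h3 = x3 ^ 2 + y3 ^ 2) (e4 : n + h4 = x4 ^ 2 + y4 ^ 2)
    (hns : ¬ IsSquare (((x1 - x2) ^ 2 + (y1 - y2) ^ 2) * ((x3 - x4) ^ 2 + (y3 - y4) ^ 2)))
    (h12 : h1 ≠ h2) (h34 : h3 ≠ h4)
    (hE : x1 * y2 - x2 * y1 ≠ 0 ∨ x3 * y4 - x4 * y3 ≠ 0) : Inf4 h1 h2 h3 h4 := by
  apply infinite_of_large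
  intro B
  have hD : 0 < (x1 - x2) ^ 2 + (y1 - y2) ^ 2 := by
    by_contra hcon
    have hx : (x1 - x2) ^ 2 = 0 := by nlinarith [sq_nonneg (x1 - x2), sq_nonneg (y1 - y2)]
    have hy : (y1 - y2) ^ 2 = 0 := by nlinarith [sq_nonneg (x1 - x2), sq_nonneg (y1 - y2)]
    have hx' : x1 = x2 := by have := pow_eq_zero_iff (two_ne_zero) |>.mp hx; linarith
    have hy' : y1 = y2 := by have := pow_eq_zero_iff (two_ne_zero) |>.mp hy; linarith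
    apply h12
    subst hx' hy'
    linarith
  have hD' : 0 < (x3 - x4) ^ 2 + (y3 - y4) ^ 2 := by
    by_contra hcon
    have hx : (x3 - x4) ^ 2 = 0 := by nlinarith [sq_nonneg (x3 - x4), sq_nonneg (y3 - y4)]
    have hy : (y3 - y4) ^ 2 = 0 := by nlinarith [sq_nonneg (x3 - x4), sq_nonneg (y3 - y4)]
    have hx' : x3 = x4 := by have := pow_eq_zero_iff (two_ne_zero) |>.mp hx; linarith
    have hy' : y3 = y4 := by have := pow_eq_zero_iff (two_ne_zero) |>.mp hy; linarith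
    apply h34
    subst hx' hy'
    linarith
  obtain ⟨t, s, hts, hB⟩ := pell_large _ _ (x1 * y2 - x2 * y1) (x3 * y4 - x4 * y3) hD hD' hns hE (B - n)
  obtain ⟨m1, m2⟩ := move x1 y1 x2 y2 (2 * t)
  obtain ⟨m3, m4⟩ := move x3 y3 x4 y4 (2 * s)
  refine ⟨n + (((x1 - x2) ^ 2 + (y1 - y2) ^ 2) * (2 * t) ^ 2 + 2 * (x1 * y2 - x2 * y1) * (2 * t)),
    by linarith,
    ⟨x1 - 2 * t * (y1 - y2), y1 + 2 * t * (x1 - x2), by rw [m1, ← e1]; ring⟩,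
    ⟨x2 - 2 * t * (y1 - y2), y2 + 2 * t * (x1 - x2), by rw [m2, ← e2]; ring⟩,
    ⟨x3 - 2 * s * (y3 - y4), y3 + 2 * s * (x3 - x4), by rw [m3, ← e3, ← hts]; ring⟩,
    ⟨x4 - 2 * s * (y3 - y4), y4 + 2 * s * (x3 - x4), by rw [m4, ← e4, ← hts]; ring⟩⟩

/-- `4 U^2 + s^2` is not a square for `U ≠ 0`, `s = 1, 2, 4` -/
lemma not_sq_aux (U s : ℤ) (hU : U ≠ 0) (hs : s = 1 ∨ s = 2 ∨ s = 4) :
    ¬ IsSquare (4 * U ^ 2 + s ^ 2) := by
  rintro ⟨k, hk⟩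
  -- replace by absolute values
  obtain ⟨u, hu0, hu⟩ : ∃ u : ℤ, 0 < u ∧ u ^ 2 = U ^ 2 := ⟨|U|, abs_pos.mpr hU, sq_abs U⟩
  obtain ⟨m, hm0, hm⟩ : ∃ m : ℤ, 0 ≤ m ∧ m ^ 2 = k ^ 2 := ⟨|k|, abs_nonneg k, sq_abs k⟩
  have h : 4 * u ^ 2 + s ^ 2 = m ^ 2 := by rw [hu, hm, hk]; ring
  have hmu : 2 * u < m := by
    by_contra hcon
    have : m ^ 2 ≤ (2 * u) ^ 2 := by
      apply pow_le_pow_left₀ hm0 (not_lt.mp hcon)
    rcases hs with rfl | rfl | rfl <;> nlinarith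
  rcases hs with rfl | rfl | rfl
  · nlinarith
  · obtain ⟨j, rfl⟩ : ∃ j, m = 2 * j := by
      have h2 : (2 : ℤ) ∣ m ^ 2 := ⟨2 * u ^ 2 + 2, by linear_combination -h⟩
      exact Int.prime_two.dvd_of_dvd_pow h2
    have : u + 1 ≤ j := by omega
    nlinarith
  · obtain ⟨j, rfl⟩ : ∃ j, m = 2 * j := by
      have h2 : (2 : ℤ) ∣ m ^ 2 := ⟨2 * u ^ 2 + 8, by linear_combination -h⟩
      exact Int.prime_two.dvd_of_dvd_pow h2
    have h3 : 4 * j ^ 2 = 4 * (u ^ 2 + 4) := by linear_combination -h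
    have h4 : j ^ 2 = u ^ 2 + 4 := by linarith
    have h5 : u + 1 ≤ j := by omega
    rcases eq_or_lt_of_le h5 with h6 | h6
    · rw [← h6] at h4
      have : 2 * u = 3 := by linear_combination h4
      omega
    · have : u + 2 ≤ j := by omega
      nlinarith

lemma Inf4.swap12 {h1 h2 h3 h4 : ℤ} (h : Inf4 h1 h2 h3 h4) : Inf4 h2 h1 h3 h4 :=
  h.mono fun _ hn => ⟨hn.2.1, hn.1, hn.2.2.1, hn.2.2.2⟩

lemma Inf4.swap23 {h1 h2 h3 h4 : ℤ} (h : Inf4 h1 h2 h3 h4) : Inf4 h1 h3 h2 h4 :=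
  h.mono fun _ hn => ⟨hn.1, hn.2.2.1, hn.2.1, hn.2.2.2⟩

lemma Inf4.swap34 {h1 h2 h3 h4 : ℤ} (h : Inf4 h1 h2 h3 h4) : Inf4 h1 h2 h4 h3 :=
  h.mono fun _ hn => ⟨hn.1, hn.2.1, hn.2.2.2, hn.2.2.1⟩

lemma Inf4.swapPairs {h1 h2 h3 h4 : ℤ} (h : Inf4 h1 h2 h3 h4) : Inf4 h3 h4 h1 h2 :=
  h.mono fun _ hn => ⟨hn.2.2.1, hn.2.2.2, hn.1, hn.2.1⟩

/-- hyperbola solution, one half -/
lemma hyper_aux (n h1 h2 h3 h4 T U nu1 mu3 r s : ℤ)
    (hr : r = 1 ∨ r = 2 ∨ r = 4) (hs : s = 1 ∨ s = 2 ∨ s = 4)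
    (e1 : n + h1 = T ^ 2 + nu1 ^ 2) (e2 : n + h2 = T ^ 2 + (nu1 - r) ^ 2)
    (e3 : n + h3 = U ^ 2 + mu3 ^ 2) (e4 : n + h4 = U ^ 2 + (mu3 - s) ^ 2)
    (h12 : h1 ≠ h2) (h34 : h3 ≠ h4) (hU : U ≠ 0) : Inf4 h1 h2 h3 h4 := by
  have hns := not_sq_aux U s hU hs
  refine inf_of_pair n h1 h2 h3 h4 T nu1 T (nu1 - r) U mu3 (-U) (mu3 - s) e1 e2 e3
    (by rw [e4]; ring) ?_ h12 h34 (Or.inr ?_)
  · rintro ⟨k, hk⟩
    apply hns
    have hr0 : r ≠ 0 := by rcases hr with rfl | rfl | rfl <;> norm_num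
    have e : r ^ 2 * (4 * U ^ 2 + s ^ 2) = k ^ 2 := by linear_combination hk
    have hd : r ^ 2 ∣ k ^ 2 := ⟨_, e.symm⟩
    obtain ⟨j, rfl⟩ := (Int.pow_dvd_pow_iff (by norm_num)).mp hd
    refine ⟨j, ?_⟩
    apply mul_left_cancel₀ (pow_ne_zero 2 hr0)
    linear_combination e
  · intro hcon
    have h5 : U * (2 * mu3 - s) = 0 := by linear_combination hcon
    rcases mul_eq_zero.mp h5 with h | h
    · exact hU h
    · apply h34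
      have : h3 - h4 = s * (2 * mu3 - s) := by linear_combination e3 - e4
      rw [h, mul_zero] at this
      linarith

/-- hyperbola solution -/
lemma hyper (h1 h2 h3 h4 nu1 mu3 r s : ℤ)
    (hr : r = 1 ∨ r = 2 ∨ r = 4) (hs : s = 1 ∨ s = 2 ∨ s = 4)
    (ha : h1 - h2 = r * (2 * nu1 - r)) (hb : h3 - h4 = s * (2 * mu3 - s))
    (h12 : h1 ≠ h2) (h34 : h3 ≠ h4)
    (hR : (h1 - h3 + mu3 ^ 2 - nu1 ^ 2) % 4 ≠ 2) : Inf4 h1 h2 h3 h4 := by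
  obtain ⟨T, U, hTU, hne⟩ : ∃ T U : ℤ, T ^ 2 - U ^ 2 = h1 - h3 + mu3 ^ 2 - nu1 ^ 2 ∧ T ≠ U := by
    generalize h1 - h3 + mu3 ^ 2 - nu1 ^ 2 = R at hR
    rcases Int.even_or_odd' R with ⟨k, hk | hk⟩
    · obtain ⟨j, hj⟩ : ∃ j, R = 4 * j := ⟨R / 4, by omega⟩
      exact ⟨j + 1, j - 1, by rw [hj]; ring, by omega⟩
    · exact ⟨k + 1, k, by rw [hk]; ring, by omega⟩
  have e1 : (T ^ 2 + nu1 ^ 2 - h1) + h1 = T ^ 2 + nu1 ^ 2 := by ring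
  have e2 : (T ^ 2 + nu1 ^ 2 - h1) + h2 = T ^ 2 + (nu1 - r) ^ 2 := by linear_combination -ha
  have e3 : (T ^ 2 + nu1 ^ 2 - h1) + h3 = U ^ 2 + mu3 ^ 2 := by linear_combination hTU
  have e4 : (T ^ 2 + nu1 ^ 2 - h1) + h4 = U ^ 2 + (mu3 - s) ^ 2 := by linear_combination hTU - hb
  by_cases hU : U = 0
  · have hT : T ≠ 0 := fun h => hne (by rw [h, hU])
    exact (hyper_aux _ h3 h4 h1 h2 U T mu3 nu1 s r hs hr e3 e4 e1 e2 h34 h12 hT).swapPairs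
  · exact hyper_aux _ h1 h2 h3 h4 T U nu1 mu3 r s hr hs e1 e2 e3 e4 h12 h34 hU

/-- Case E: `h1 ≡ h2 ≡ h3 + 6 (mod 8)`, `h4` of the other parity -/
lemma caseE (h1 h2 h3 h4 : ℤ) (c1 : (h1 - h3) % 8 = 6) (c2 : (h2 - h3) % 8 = 6)
    (c4 : (h4 - h3) % 2 = 1) : Inf4 h1 h2 h3 h4 := by
  obtain ⟨a, ha⟩ : ∃ a, h1 - h3 = 2 * (4 * a + 3) := ⟨(h1 - h3) / 8, by omega⟩
  obtain ⟨b, hb⟩ : ∃ b, h2 - h3 = 2 * (4 * b + 3) := ⟨(h2 - h3) / 8, by omega⟩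
  obtain ⟨g, hg⟩ : ∃ g, h4 - h3 = 2 * g + 1 := ⟨(h4 - h3) / 2, by omega⟩
  -- nu3 = 2a+1, nu1 = 2a+2
  obtain ⟨nu, hnu⟩ : ∃ nu : ℤ, nu = 2 * a + 1 := ⟨_, rfl⟩
  obtain ⟨R', hR'⟩ : ∃ R' : ℤ, 3 * nu ^ 2 + 2 * (2 * g + 1) - (4 * b + 3) + 3 = 4 * R' + 1 := by
    refine ⟨3 * a ^ 2 + 3 * a + g - b + 1, ?_⟩
    rw [hnu]; ring
  -- v = 2R', v4 = 2R'+1
  obtain ⟨t, ht⟩ : ∃ t : ℤ, nu ^ 2 + (4 * b + 3) - 4 - (2 * R') ^ 2 = 4 * t := by
    refine ⟨a ^ 2 + a + b - R' ^ 2, ?_⟩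
    rw [hnu]; ring
  apply infinite_of_large
  intro B
  obtain ⟨v, hv, hE⟩ : ∃ v : ℤ, (v = 2 * R' ∨ v = -(2 * R')) ∧
      (4 * (-t) ≠ 0 ∨ (2 * t + 4) * (2 * R' + 1) - (2 * t + 1) * (2 * v) ≠ 0) := by
    by_cases h0 : t = 0
    · by_cases h1' : R' = -1
      · refine ⟨-(2 * R'), Or.inr rfl, Or.inr ?_⟩
        rw [h0, h1']; norm_num
      · refine ⟨2 * R', Or.inl rfl, Or.inr ?_⟩
        rw [h0]
        intro hcon
        apply h1'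
        linarith
    · exact ⟨2 * R', Or.inl rfl, Or.inl (by intro h; apply h0; linarith)⟩
  have hv2 : v ^ 2 = (2 * R') ^ 2 := by rcases hv with rfl | rfl <;> ring
  have hveven : ∃ w, v = 2 * w := by
    rcases hv with rfl | rfl
    · exact ⟨R', rfl⟩
    · exact ⟨-R', by ring⟩
  obtain ⟨w, hw⟩ := hveven
  -- the two pairs
  have hns : ¬ IsSquare ((4 : ℤ) * (3 ^ 2 + (2 * v - (2 * R' + 1)) ^ 2)) := by
    rintro ⟨k, hk⟩
    obtain ⟨c, hc⟩ : ∃ c, 2 * v - (2 * R' + 1) = 2 * c + 1 := ⟨v - R' - 1, by ring⟩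
    rw [hc] at hk
    have h2 : (2 : ℤ) ∣ k ^ 2 := ⟨2 * (3 ^ 2 + (2 * c + 1) ^ 2), by linear_combination -hk⟩
    obtain ⟨j, rfl⟩ := Int.prime_two.dvd_of_dvd_pow h2
    have h3 : 4 * (4 * (c ^ 2 + c + 2) + 2) = 4 * j ^ 2 := by linear_combination hk
    have h4 : j ^ 2 = 4 * (c ^ 2 + c + 2) + 2 := by linarith
    have h5 : (2 : ℤ) ∣ j ^ 2 := ⟨2 * (c ^ 2 + c + 2) + 1, by linear_combination h4⟩
    obtain ⟨i, rfl⟩ := Int.prime_two.dvd_of_dvd_pow h5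
    have h6 : 4 * i ^ 2 = 4 * (c ^ 2 + c + 2) + 2 := by linear_combination h4
    omega
  obtain ⟨τ, σ, hts, hB⟩ := pell_large 4 (3 ^ 2 + (2 * v - (2 * R' + 1)) ^ 2) (4 * (-t))
    ((2 * t + 4) * (2 * R' + 1) - (2 * t + 1) * (2 * v)) (by norm_num) (by positivity) hns hE
    (4 * (|B| + |h3|))
  obtain ⟨V, hV⟩ : ∃ V : ℤ, 4 * (2 * τ) ^ 2 + 2 * (4 * (-t)) * (2 * τ) = 4 * V :=
    ⟨(2 * τ) ^ 2 + 2 * (-t) * (2 * τ), by ring⟩
  have hVB : |B| + |h3| < V := by linarith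
  have hVeq : V = (2 * τ) ^ 2 - 2 * t * (2 * τ) := by linarith
  refine ⟨2 * (t ^ 2 + nu ^ 2 + V) - h3, ?_, ?_, ?_, ?_, ?_⟩
  · have a1 := le_abs_self h3
    have a2 := le_abs_self B
    have a3 := abs_nonneg h3
    have a4 := abs_nonneg B
    have a5 : 0 ≤ t ^ 2 + nu ^ 2 := by positivity
    linarith
  · -- n + h1
    have : 2 * (t ^ 2 + nu ^ 2 + V) - h3 + h1 = 2 * (t ^ 2 + (nu + 1) ^ 2 + V) := by
      rw [hnu]; linear_combination ha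
    rw [this]
    apply Sq2.two_mul
    refine ⟨t - 2 * τ, nu + 1, ?_⟩
    rw [hVeq]; ring
  · -- n + h2
    have : 2 * (t ^ 2 + nu ^ 2 + V) - h3 + h2 = 2 * ((t + 2) ^ 2 + v ^ 2 + V) := by
      rw [hv2]; linear_combination hb + 2 * ht
    rw [this]
    apply Sq2.two_mul
    refine ⟨t + 2 - σ * (2 * v - (2 * R' + 1)), v + 3 * σ, ?_⟩
    have h4 : 4 * ((t + 2) ^ 2 + v ^ 2 + V) =
        4 * ((t + 2 - σ * (2 * v - (2 * R' + 1))) ^ 2 + (v + 3 * σ) ^ 2) := by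
      linear_combination hts - hV
    linarith
  · -- n + h3
    have : 2 * (t ^ 2 + nu ^ 2 + V) - h3 + h3 = 2 * (t ^ 2 + nu ^ 2 + V) := by ring
    rw [this]
    apply Sq2.two_mul
    refine ⟨t - 2 * τ, nu, ?_⟩
    rw [hVeq]; ring
  · -- n + h4
    apply Sq2.of_two_mul
    refine ⟨2 * t + 1 - 2 * σ * (2 * v - (2 * R' + 1)), 2 * R' + 1 + 6 * σ, ?_⟩
    linear_combination 2 * hg + hR' + ht + hts - hV

/-! ### 2-adic conditions -/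

/-- residues allowed modulo 16 for a sum of two squares -/
def Res (m : ℤ) : Prop := m % 4 ≠ 3 ∧ m % 8 ≠ 6 ∧ m % 16 ≠ 12

/-- `m` is congruent to a sum of two squares modulo `2^α` -/
def Near (α : ℕ) (m : ℤ) : Prop := ∃ x y : ℤ, (2 : ℤ) ^ α ∣ m - (x ^ 2 + y ^ 2)

lemma sq_mod16 (x : ℤ) : x ^ 2 % 16 = 0 ∨ x ^ 2 % 16 = 1 ∨ x ^ 2 % 16 = 4 ∨ x ^ 2 % 16 = 9 := by
  obtain ⟨k, hk⟩ : ∃ k, x = 8 * k + x % 8 := ⟨x / 8, by omega⟩
  have h8 : x % 8 = 0 ∨ x % 8 = 1 ∨ x % 8 = 2 ∨ x % 8 = 3 ∨ x % 8 = 4 ∨ x % 8 = 5 ∨ x % 8 = 6 ∨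
    x % 8 = 7 := by omega
  rcases h8 with h | h | h | h | h | h | h | h <;> rw [h] at hk <;> rw [hk] <;> ring_nf <;> omega

lemma Near.res {m : ℤ} (h : Near 4 m) : Res m := by
  obtain ⟨x, y, c, hc⟩ := h
  have hx := sq_mod16 x
  have hy := sq_mod16 y
  generalize x ^ 2 = X at *
  generalize y ^ 2 = Y at *
  unfold Res
  have hm : m = X + Y + 16 * c := by linarith
  rcases hx with hx | hx | hx | hx <;> rcases hy with hy | hy | hy | hy <;>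
    refine ⟨?_, ?_, ?_⟩ <;> omega

lemma Near.mono {α β : ℕ} (h : α ≤ β) {m : ℤ} (hm : Near β m) : Near α m := by
  obtain ⟨x, y, hc⟩ := hm
  exact ⟨x, y, (pow_dvd_pow 2 h).trans hc⟩

/-- the 2-adic condition -/
def Loc (h1 h2 h3 h4 : ℤ) : Prop :=
  ∀ α : ℕ, ∃ a : ℤ, Near α (a + h1) ∧ Near α (a + h2) ∧ Near α (a + h3) ∧ Near α (a + h4)

/-- the condition modulo 16 -/
def Loc16 (h1 h2 h3 h4 : ℤ) : Prop :=
  ∃ a : ℤ, Res (a + h1) ∧ Res (a + h2) ∧ Res (a + h3) ∧ Res (a + h4)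

lemma Loc.loc16 {h1 h2 h3 h4 : ℤ} (h : Loc h1 h2 h3 h4) : Loc16 h1 h2 h3 h4 := by
  obtain ⟨a, h1, h2, h3, h4⟩ := h 4
  exact ⟨a, h1.res, h2.res, h3.res, h4.res⟩

lemma hR1 (c m n : ℤ) (hc : c % 4 = 0) : (c + m ^ 2 - n ^ 2) % 4 ≠ 2 := by
  have h1 : m ^ 2 % 4 = 0 ∨ m ^ 2 % 4 = 1 := by have := sq_mod16 m; omega
  have h2 : n ^ 2 % 4 = 0 ∨ n ^ 2 % 4 = 1 := by have := sq_mod16 n; omega
  generalize m ^ 2 = M at *
  generalize n ^ 2 = N at *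
  omega

lemma hR2 (c m n : ℤ) (hc : c % 2 = 0) (hmn : (m - n) % 2 = 1) :
    (c + m ^ 2 - n ^ 2) % 4 ≠ 2 := by
  have h1 : (m ^ 2 - n ^ 2) % 2 = 1 := by
    obtain ⟨k, hk⟩ : ∃ k, m = n + 2 * k + 1 := ⟨(m - n) / 2, by omega⟩
    have : m ^ 2 - n ^ 2 = 2 * (2 * k ^ 2 + 2 * k * n + 2 * k + n) + 1 := by rw [hk]; ring
    omega
  generalize m ^ 2 = M at *
  generalize n ^ 2 = N at *
  omega

/-- three of one parity, two congruent mod 4 and the third not -/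
lemma type3 (h1 h2 h3 h4 : ℤ) (h12 : h1 ≠ h2) (h34 : h3 ≠ h4) (c12 : (h1 - h2) % 4 = 0)
    (c13 : (h1 - h3) % 4 = 2) (c4 : (h3 - h4) % 2 = 1) (hL : Loc16 h1 h2 h3 h4) :
    Inf4 h1 h2 h3 h4 := by
  obtain ⟨a, ⟨a1, b1, d1⟩, ⟨a2, b2, d2⟩, ⟨a3, b3, d3⟩, ⟨a4, b4, d4⟩⟩ := hL
  have h5 : (a + h4) % 4 = 1 := by omega
  obtain ⟨mu, hmu⟩ : ∃ mu, h3 - h4 = 1 * (2 * mu - 1) := ⟨(h3 - h4 + 1) / 2, by omega⟩
  obtain ⟨k, hk⟩ : ∃ k, h1 - h2 = 4 * k := ⟨(h1 - h2) / 4, by omega⟩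
  rcases (show (h3 - h4) % 4 = 1 ∨ (h3 - h4) % 4 = 3 by omega) with hb | hb
  · rcases (show k % 2 = 1 ∨ k % 4 = 0 ∨ k % 4 = 2 by omega) with hk2 | hk2 | hk2
    · refine hyper h1 h2 h3 h4 (k + 1) mu 2 1 (by simp) (by simp) (by rw [hk]; ring) hmu h12 h34 ?_
      exact hR2 _ _ _ (by omega) (by omega)
    · obtain ⟨j, hj⟩ : ∃ j, k = 4 * j := ⟨k / 4, by omega⟩
      refine hyper h1 h2 h3 h4 (2 * j + 2) mu 4 1 (by simp) (by simp) (by rw [hk, hj]; ring) hmu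
        h12 h34 ?_
      exact hR2 _ _ _ (by omega) (by omega)
    · have : (h1 - h3) % 8 = 6 := by omega
      exact caseE h1 h2 h3 h4 this (by omega) (by omega)
  · have h8 : (h1 - h2) % 8 = 0 := by omega
    refine hyper h1 h2 h3 h4 (k + 1) mu 2 1 (by simp) (by simp) (by rw [hk]; ring) hmu h12 h34 ?_
    exact hR2 _ _ _ (by omega) (by omega)

/-- three of one parity -/
lemma type31 (h1 h2 h3 h4 : ℤ) (d12 : h1 ≠ h2) (d13 : h1 ≠ h3) (d23 : h2 ≠ h3) (d14 : h1 ≠ h4)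
    (d24 : h2 ≠ h4) (d34 : h3 ≠ h4) (c12 : (h1 - h2) % 2 = 0) (c13 : (h1 - h3) % 2 = 0)
    (c4 : (h3 - h4) % 2 = 1) (hL : Loc16 h1 h2 h3 h4) : Inf4 h1 h2 h3 h4 := by
  by_cases e12 : (h1 - h2) % 4 = 0
  · by_cases e13 : (h1 - h3) % 4 = 0
    · obtain ⟨mu, hmu⟩ : ∃ mu, h3 - h4 = 1 * (2 * mu - 1) := ⟨(h3 - h4 + 1) / 2, by omega⟩
      obtain ⟨k, hk⟩ : ∃ k, h1 - h2 = 4 * k := ⟨(h1 - h2) / 4, by omega⟩
      refine hyper h1 h2 h3 h4 (k + 1) mu 2 1 (by simp) (by simp) (by rw [hk]; ring) hmu d12 d34 ?_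
      exact hR1 _ _ _ e13
    · exact type3 h1 h2 h3 h4 d12 d34 e12 (by omega) c4 hL
  · obtain ⟨a, a1, a2, a3, a4⟩ := hL
    by_cases e13 : (h1 - h3) % 4 = 0
    · exact (type3 h1 h3 h2 h4 d13 d24 e13 (by omega) (by omega) ⟨a, a1, a3, a2, a4⟩).swap23
    · exact (type3 h2 h3 h1 h4 d23 d14 (by omega) (by omega) (by omega)
        ⟨a, a2, a3, a1, a4⟩).swap23.swap12

/-- two of each parity -/
lemma type22 (h1 h2 h3 h4 : ℤ) (d13 : h1 ≠ h3) (d24 : h2 ≠ h4) (c12 : (h1 - h2) % 2 = 0)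
    (c34 : (h3 - h4) % 2 = 0) (c13 : (h1 - h3) % 2 = 1) (hL : Loc16 h1 h2 h3 h4) :
    Inf4 h1 h2 h3 h4 := by
  obtain ⟨nu, hnu⟩ : ∃ nu, h1 - h3 = 1 * (2 * nu - 1) := ⟨(h1 - h3 + 1) / 2, by omega⟩
  obtain ⟨mu, hmu⟩ : ∃ mu, h2 - h4 = 1 * (2 * mu - 1) := ⟨(h2 - h4 + 1) / 2, by omega⟩
  apply Inf4.swap23
  refine hyper h1 h3 h2 h4 nu mu 1 1 (by simp) (by simp) hnu hmu d13 d24 ?_
  by_cases e12 : (h1 - h2) % 4 = 0
  · exact hR1 _ _ _ e12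
  · by_cases e34 : (h3 - h4) % 4 = 0
    · exact hR2 _ _ _ c12 (by omega)
    · exfalso
      obtain ⟨a, ⟨a1, -, -⟩, ⟨a2, -, -⟩, ⟨a3, -, -⟩, ⟨a4, -, -⟩⟩ := hL
      omega

lemma Near.even_half {α : ℕ} {m : ℤ} (h : Near (α + 1) (2 * m)) : Near α m := by
  obtain ⟨x, y, c, hc⟩ := h
  have h2 : (2 : ℤ) ∣ (x + y) ^ 2 := by
    refine ⟨m + x * y - 2 ^ α * c, ?_⟩
    rw [pow_succ] at hc
    linear_combination -hc
  obtain ⟨u, hu⟩ := Int.prime_two.dvd_of_dvd_pow h2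
  refine ⟨u, u - y, c, ?_⟩
  have hx : x = 2 * u - y := by linarith
  rw [hx, pow_succ] at hc
  have : 2 * (m - (u ^ 2 + (u - y) ^ 2)) = 2 * (2 ^ α * c) := by linear_combination hc
  linarith

/-- the core theorem for four shifts -/
theorem core (N : ℕ) : ∀ h1 h2 h3 h4 : ℤ, h1 ≠ h2 → h1 ≠ h3 → h1 ≠ h4 → h2 ≠ h3 → h2 ≠ h4 →
    h3 ≠ h4 → Loc h1 h2 h3 h4 → |h1 - h4| + |h2 - h4| + |h3 - h4| ≤ N → Inf4 h1 h2 h3 h4 := by
  induction N using Nat.strong_induction_on with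
  | _ N ih =>
  intro h1 h2 h3 h4 d12 d13 d14 d23 d24 d34 hL hN
  have hL16 := hL.loc16
  obtain ⟨a, r1, r2, r3, r4⟩ := hL16
  rcases (show (h1 - h4) % 2 = 0 ∨ (h1 - h4) % 2 = 1 by omega) with p1 | p1 <;>
  rcases (show (h2 - h4) % 2 = 0 ∨ (h2 - h4) % 2 = 1 by omega) with p2 | p2 <;>
  rcases (show (h3 - h4) % 2 = 0 ∨ (h3 - h4) % 2 = 1 by omega) with p3 | p3
  · -- all the same parity
    by_cases q : (h1 - h4) % 4 = 0 ∧ (h2 - h4) % 4 = 0 ∧ (h3 - h4) % 4 = 0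
    · obtain ⟨k, hk⟩ : ∃ k, h1 - h2 = 4 * k := ⟨(h1 - h2) / 4, by omega⟩
      obtain ⟨l, hl⟩ : ∃ l, h3 - h4 = 4 * l := ⟨(h3 - h4) / 4, by omega⟩
      refine hyper h1 h2 h3 h4 (k + 1) (l + 1) 2 2 (by simp) (by simp) (by rw [hk]; ring)
        (by rw [hl]; ring) d12 d34 ?_
      exact hR1 _ _ _ (by omega)
    · -- divide by two
      obtain ⟨k1, hk1⟩ : ∃ k, h1 = h4 + 2 * k := ⟨(h1 - h4) / 2, by omega⟩
      obtain ⟨k2, hk2⟩ : ∃ k, h2 = h4 + 2 * k := ⟨(h2 - h4) / 2, by omega⟩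
      obtain ⟨k3, hk3⟩ : ∃ k, h3 = h4 + 2 * k := ⟨(h3 - h4) / 2, by omega⟩
      have hL' : Loc k1 k2 k3 0 := by
        intro α
        obtain ⟨b, b1, b2, b3, b4⟩ := hL (α + 4)
        have r1 := (b1.mono (show 4 ≤ α + 4 by omega)).res
        have r2 := (b2.mono (show 4 ≤ α + 4 by omega)).res
        have r3 := (b3.mono (show 4 ≤ α + 4 by omega)).res
        have r4 := (b4.mono (show 4 ≤ α + 4 by omega)).res
        obtain ⟨r1, -, -⟩ := r1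
        obtain ⟨r2, -, -⟩ := r2
        obtain ⟨r3, -, -⟩ := r3
        obtain ⟨r4, -, -⟩ := r4
        obtain ⟨c, hc⟩ : ∃ c, b + h4 = 2 * c := ⟨(b + h4) / 2, by omega⟩
        refine ⟨c, ?_, ?_, ?_, ?_⟩
        · apply Near.even_half
          rw [show 2 * (c + k1) = b + h1 by rw [hk1]; linear_combination -hc]
          exact b1.mono (by omega)
        · apply Near.even_half
          rw [show 2 * (c + k2) = b + h2 by rw [hk2]; linear_combination -hc]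
          exact b2.mono (by omega)
        · apply Near.even_half
          rw [show 2 * (c + k3) = b + h3 by rw [hk3]; linear_combination -hc]
          exact b3.mono (by omega)
        · apply Near.even_half
          rw [show 2 * (c + 0) = b + h4 by linear_combination -hc]
          exact b4.mono (by omega)
      have hsum : |h1 - h4| + |h2 - h4| + |h3 - h4| = 2 * (|k1 - 0| + |k2 - 0| + |k3 - 0|) := by
        rw [hk1, hk2, hk3]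
        have e : ∀ k : ℤ, |h4 + 2 * k - h4| = 2 * |k - 0| := by
          intro k
          rw [sub_zero, show h4 + 2 * k - h4 = 2 * k by ring, abs_mul]
          norm_num
        rw [e, e, e]; ring
      have hpos : 0 < |k1 - 0| := abs_pos.mpr (by omega)
      have hnn2 := abs_nonneg (k2 - 0)
      have hnn3 := abs_nonneg (k3 - 0)
      have hI := ih (|k1 - 0| + |k2 - 0| + |k3 - 0|).toNat (by omega) k1 k2 k3 0 (by omega)
        (by omega) (by omega) (by omega) (by omega) (by omega) hL' (by omega)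
      -- transfer
      have hinj : Function.Injective (fun n : ℤ => 2 * n - h4) := by
        intro x y hxy
        have : 2 * x - h4 = 2 * y - h4 := hxy
        linarith
      refine (hI.image hinj.injOn).mono ?_
      rintro _ ⟨n, ⟨s1, s2, s3, s4⟩, rfl⟩
      refine ⟨?_, ?_, ?_, ?_⟩
      · show Sq2 (2 * n - h4 + h1)
        rw [show 2 * n - h4 + h1 = 2 * (n + k1) by rw [hk1]; ring]; exact s1.two_mul
      · show Sq2 (2 * n - h4 + h2)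
        rw [show 2 * n - h4 + h2 = 2 * (n + k2) by rw [hk2]; ring]; exact s2.two_mul
      · show Sq2 (2 * n - h4 + h3)
        rw [show 2 * n - h4 + h3 = 2 * (n + k3) by rw [hk3]; ring]; exact s3.two_mul
      · show Sq2 (2 * n - h4 + h4)
        rw [show 2 * n - h4 + h4 = 2 * (n + 0) by ring]; exact s4.two_mul
  · -- h3 odd one out
    exact (type31 h1 h2 h4 h3 d12 d14 d24 d13 d23 d34.symm (by omega) (by omega) (by omega)
      ⟨a, r1, r2, r4, r3⟩).swap34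
  · -- h2 odd one out
    exact (type31 h1 h3 h4 h2 d13 d14 d34 d12 d23.symm d24.symm (by omega) (by omega) (by omega)
      ⟨a, r1, r3, r4, r2⟩).swap34.swap23
  · -- h2, h3 against h1, h4
    exact (type22 h2 h3 h1 h4 d12.symm d34 (by omega) (by omega) (by omega)
      ⟨a, r2, r3, r1, r4⟩).swap23.swap12
  · -- h1 odd one out
    exact (type31 h2 h3 h4 h1 d23 d24 d34 d12.symm d13.symm d14.symm (by omega) (by omega)
      (by omega) ⟨a, r2, r3, r4, r1⟩).swap34.swap23.swap12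
  · -- h1, h3 against h2, h4
    exact (type22 h1 h3 h2 h4 d12 d34 (by omega) (by omega) (by omega)
      ⟨a, r1, r3, r2, r4⟩).swap23
  · -- h1, h2 against h3, h4
    exact type22 h1 h2 h3 h4 d13 d24 (by omega) (by omega) (by omega) ⟨a, r1, r2, r3, r4⟩
  · exact type31 h1 h2 h3 h4 d12 d13 d23 d14 d24 d34 (by omega) (by omega) (by omega)
      ⟨a, r1, r2, r3, r4⟩

end Pool.Agent.Lib.MP_0ea763_nt
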